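import Pool.Agent.helper88.RL.SpecW
set_option autoImplicit false
namespace Pool.Agent.RL
open Finset Pool.Agent.helper3.FT Pool.Agent.T6 Pool.Agent.RF

theorem VDM_ph : ph ^ 2 = 1 + ph := by
  ext <;> simp [ph, pow_two, QuadraticAlgebra.re_one, QuadraticAlgebra.im_one]

theorem VDM_star_ph : star ph = 1 - ph := by
  ext <;> simp [ph, QuadraticAlgebra.re_one, QuadraticAlgebra.im_one]

theorem VDM_r5 : r5 = 2 * ph - 1 := by
  ext <;> simp [ph, r5, QuadraticAlgebra.re_one, QuadraticAlgebra.im_one, QuadraticAlgebra.re_ofNat, QuadraticAlgebra.im_ofNat]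

theorem VDM_mk (u v : ℤ) : (⟨u, v⟩ : OO) = (u : OO) + (v : OO) * ph := by
  ext <;> simp [ph]

theorem VDM (hVIN : VIN_stmt) : VDM_stmt := by
  intro k g ε l h α β γ P₁ P₂ u v hkk hn hε hgn hRM hd1 hd2
  obtain ⟨hkr, hk2, hint, -⟩ := hVIN k hkk hn
  have hph := VDM_ph
  have hsp := VDM_star_ph
  obtain ⟨t1, E1⟩ := (hint _).2 hd1
  obtain ⟨t2, E2⟩ := (hint _).2 hd2
  push_cast at E1 E2
  obtain ⟨a1, A1⟩ := hRM.ha
  obtain ⟨b1, B1⟩ := hRM.hb
  obtain ⟨c1, C1⟩ := hRM.hc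
  have hN : g * star g = (ε : OO) * (l : OO) := by
    rw [← QuadraticAlgebra.algebraMap_norm_eq_mul_star, hgn]
    have h1 : (algebraMap ℤ OO) (ε * l) = ((ε * l : ℤ) : OO) := rfl
    rw [h1]
    push_cast
    rfl
  have hεε : (ε : OO) * (ε : OO) = 1 := by
    rcases hε with rfl | rfl
    · push_cast
      ring
    · push_cast
      ring
  rw [hgn] at A1 B1 C1
  push_cast at A1 B1 C1
  rw [VDM_mk u v]
  have hSU : star ((u : OO) + (v : OO) * ph) = (u : OO) + (v : OO) * (1 - ph) := by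
    rw [star_add, star_mul, hsp, star_intCast, star_intCast]
    ring
  have hSP : star (ph * (P₁ : OO) - (P₂ : OO)) = (1 - ph) * (P₁ : OO) - (P₂ : OO) := by
    rw [star_sub, star_mul, hsp, star_intCast, star_intCast]
    ring
  have hkr' := hkr
  rw [VDM_r5] at A1 B1 C1 hkr'
  have hb : k ^ 3 ∣ ((2 * ph - 1) * star k ^ 2) * (((h : OO) * (ε * l) * ((u : OO) + (v : OO) * ph)) - (ph * P₁ - P₂)) := by
    refine ⟨(star k ^ 2 * (2 * ph - 1) * ph) * t1 - (star k ^ 2 * (2 * ph - 1)) * t2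
      - 2 * h * u * ph * a1 - h * (ph * v - u) * b1 + 2 * h * v * c1, ?_⟩
    linear_combination (star k ^ 2 * (2 * ph - 1) * ph) * E1 - (star k ^ 2 * (2 * ph - 1)) * E2
      - 2 * h * u * ph * A1 - h * (ph * v - u) * B1 + 2 * h * v * C1 + 2 * v * star k ^ 2 * h * (ε * l) * hph
  have hco1 : IsCoprime (k ^ 3) ((2 * ph - 1) * star k ^ 2) := (hkr'.mul_right (hkk.pow_right)).pow_left
  obtain ⟨e, he⟩ := hco1.dvd_of_dvd_mul_left hb
  have hc : k ^ 3 ∣ (2 * ph - 1) * (star k ^ 2 * ((1 - ph) * P₁ - P₂) +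
      h * ((ε * l) * star k ^ 2 * ((u : OO) + (v : OO) * (1 - ph)) + 4 * ph * k ^ 2 * g ^ 2 * ((u : OO) + (v : OO) * ph))) := by
    refine ⟨-(star k ^ 2 * (2 * ph - 1) * (1 - ph)) * t1 + (star k ^ 2 * (2 * ph - 1)) * t2
      + 2 * h * u * (1 - ph) * a1 - h * (u - (1 - ph) * v) * b1 - 2 * h * v * c1, ?_⟩
    linear_combination -(star k ^ 2 * (2 * ph - 1) * (1 - ph)) * E1 + (star k ^ 2 * (2 * ph - 1)) * E2
      + 2 * h * u * (1 - ph) * A1 - h * (u - (1 - ph) * v) * B1 - 2 * h * v * C1 - 2 * v * star k ^ 2 * h * (ε * l) * hph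
  obtain ⟨t3, h3⟩ := (hkr'.pow_left (m := 3)).dvd_of_dvd_mul_left hc
  constructor
  · refine ⟨(ε : OO) * g * e, ?_⟩
    push_cast
    linear_combination (ε : OO) * g * he - (h : OO) * l * g * ((u : OO) + (v : OO) * ph) * hεε
  · refine ⟨(ε : OO) * star g * t3, ?_⟩
    rw [star_one, star_mul (((ε : ℤ) : OO) * g), star_mul ((ε : ℤ) : OO), star_intCast, hSP, star_mul g, hSU]
    push_cast
    linear_combination (ε : OO) * star g * h3 - (h : OO) * l * star k ^ 2 * star g * ((u : OO) + (v : OO) * (1 - ph)) * hεε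
      - 4 * (h : OO) * ph * k ^ 2 * g * ((u : OO) + (v : OO) * ph) * ((ε : OO) * hN + l * hεε)

end Pool.Agent.RL
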